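import Mathlib
import Pool.Agent.X55.HZ.Stm

set_option autoImplicit false

namespace Pool.Agent.X168.HZ

open Finset Pool.Agent.X55.HZ

lemma rowsum_pow {n : ℕ} (M : Matrix (Fin n) (Fin n) ℕ) (R : ℕ) (h : ∀ x, ∑ y, M x y ≤ R) (k : ℕ) :
    ∀ x, ∑ y, (M ^ k) x y ≤ R ^ k := by
  induction k with
  | zero => intro x; simp [Matrix.one_apply]
  | succ k ih =>
    intro x
    rw [pow_succ M k, pow_succ R k]
    calc ∑ y, (M ^ k * M) x y = ∑ y, ∑ z, (M ^ k) x z * M z y := by simp [Matrix.mul_apply]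
      _ = ∑ z, ∑ y, (M ^ k) x z * M z y := Finset.sum_comm
      _ = ∑ z, (M ^ k) x z * ∑ y, M z y := by simp [Finset.mul_sum]
      _ ≤ ∑ z, (M ^ k) x z * R := Finset.sum_le_sum (fun z _ => Nat.mul_le_mul_left _ (h z))
      _ = (∑ z, (M ^ k) x z) * R := by rw [Finset.sum_mul]
      _ ≤ R ^ k * R := Nat.mul_le_mul_right _ (ih x)

theorem t_SIZ : S_SIZ := by
  intro n m B hB k
  have hrow : ∀ x, ∑ y, (1 + ∑ i, B i) x y ≤ 1 + m * n := by
    intro x
    simp only [Matrix.add_apply, Matrix.sum_apply, Finset.sum_add_distrib]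
    have h1 : ∑ y, (1 : Matrix (Fin n) (Fin n) ℕ) x y = 1 := by simp [Matrix.one_apply]
    have h2 : ∑ y, ∑ i, B i x y ≤ m * n := by
      calc ∑ y : Fin n, ∑ i : Fin m, B i x y ≤ ∑ y : Fin n, ∑ i : Fin m, 1 :=
            sum_le_sum (fun y _ => sum_le_sum fun i _ => hB i x y)
        _ = m * n := by simp [mul_comm]
    omega
  have hp := rowsum_pow _ _ hrow n
  have htr : (B k * (1 + ∑ i, B i) ^ n).trace ≤ n * (1 + m * n) ^ n := by
    have e : (B k * (1 + ∑ i, B i) ^ n).trace = ∑ x, ∑ y, B k x y * ((1 + ∑ i, B i) ^ n) y x := by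
      simp [Matrix.trace, Matrix.mul_apply]
    rw [e]
    calc ∑ x, ∑ y, B k x y * ((1 + ∑ i, B i) ^ n) y x
        ≤ ∑ x, ∑ y, ((1 + ∑ i, B i) ^ n) y x :=
          sum_le_sum fun x _ => sum_le_sum fun y _ => by
            have := Nat.mul_le_mul_right (((1 + ∑ i, B i) ^ n) y x) (hB k x y)
            rwa [one_mul] at this
      _ = ∑ y, ∑ x, ((1 + ∑ i, B i) ^ n) y x := Finset.sum_comm
      _ ≤ ∑ _y : Fin n, (1 + m * n) ^ n := sum_le_sum fun y _ => hp y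
      _ = n * (1 + m * n) ^ n := by simp
  unfold alg Mb
  set N := m * (n * n) with hN
  have hmn : m * n ≤ N := by
    rw [hN]
    rcases Nat.eq_zero_or_pos n with h0 | h0
    · subst h0; simp
    · exact Nat.mul_le_mul_left m (Nat.le_mul_of_pos_left n h0)
  set L := N + n + 2 with hL
  have hLX : L < 2 ^ L := Nat.lt_two_pow_self
  obtain ⟨X, hX⟩ : ∃ X, X = 2 ^ L := ⟨_, rfl⟩
  have hX2 : L < X := by rw [hX]; exact hLX
  have hf : N.factorial ≤ X ^ N := by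
    calc N.factorial ≤ N ^ N := Nat.factorial_le_pow N
      _ ≤ X ^ N := Nat.pow_le_pow_left (by omega) N
  have hf1 : 1 ≤ N.factorial ^ 2 := Nat.one_le_pow _ _ (Nat.factorial_pos N)
  have hM : 1 + (N + 1) * N.factorial ^ 2 ≤ X * (X ^ N) ^ 2 := by
    calc 1 + (N + 1) * N.factorial ^ 2 ≤ (N + 2) * N.factorial ^ 2 := by nlinarith
      _ ≤ X * (X ^ N) ^ 2 := Nat.mul_le_mul (by omega) (Nat.pow_le_pow_left hf 2)
  have hT : (B k * (1 + ∑ i, B i) ^ n).trace ≤ X * X ^ n :=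
    htr.trans (Nat.mul_le_mul (by omega) (Nat.pow_le_pow_left (by omega) n))
  have hX1 : 1 < X := by omega
  calc (1 + (N + 1) * N.factorial ^ 2) * (B k * (1 + ∑ i, B i) ^ n).trace
      ≤ (X * (X ^ N) ^ 2) * (X * X ^ n) := Nat.mul_le_mul hM hT
    _ = X ^ (2 * N + n + 2) := by ring
    _ < X ^ (2 * N + n + 6) := Nat.pow_lt_pow_right hX1 (by omega)
    _ = 2 ^ ((2 * N + n + 6) * L) := by rw [hX, ← pow_mul]; congr 1; ring

end Pool.Agent.X168.HZ
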